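import Pool.Agent.Helper47.RR.Defs
import Pool.Agent.Helper41.FatCore

/-!
# Project EC (effective cone of the symmetric square of a curve of genus `g`): definitions
-/

set_option autoImplicit false

namespace Pool.Agent.Helper34.EC

open Polynomial TensorProduct

noncomputable section

/-! ### Filtered algebras -/

/-- An algebra with a basis `e_M` indexed by a numerical semigroup `H` with `g` gaps, such that
`e_M e_N - e_{M+N}` is a combination of basis vectors of order less than `M + N`. -/
structure Filt (F A : Type) [Field F] [CommRing A] [Algebra F A] (g : ℕ) where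
  /-- the semigroup -/
  H : Set ℕ
  /-- the basis -/
  e : Module.Basis H F A
  zero_mem : 0 ∈ H
  add_mem : ∀ {i j : ℕ}, i ∈ H → j ∈ H → i + j ∈ H
  one : e ⟨0, zero_mem⟩ = 1
  mul : ∀ i j : H, e i * e j - e ⟨i + j, add_mem i.2 j.2⟩ ∈
    Submodule.span F (e '' {l | (l : ℕ) < (i : ℕ) + j})
  gaps : Set.encard Hᶜ = (g : ℕ∞)

/-- The elements of order at most `M`. -/
def Filt.V {F A : Type} [Field F] [CommRing A] [Algebra F A] {g : ℕ} (P : Filt F A g) (M : ℕ) :
    Submodule F A := Submodule.span F (P.e '' {l | (l : ℕ) ≤ M})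

/-- The space `V ⊗ V` inside `A ⊗ A`. -/
def sq {F A : Type} [Field F] [CommRing A] [Algebra F A] (V : Submodule F A) :
    Submodule F (A ⊗[F] A) := Submodule.span F {x | ∃ a ∈ V, ∃ b ∈ V, x = a ⊗ₜ[F] b}

/-- No nonzero element of `V ⊗ V` vanishes to order `γ` along the (generic point of the)
diagonal. -/
def Van (F A : Type) [Field F] [CommRing A] [Algebra F A] (V : Submodule F A) (γ : ℕ) : Prop :=
  ∀ x ∈ sq V, x ≠ 0 → ∀ b : A, b ≠ 0 → (b ⊗ₜ[F] b) * x ∉ (KaehlerDifferential.ideal F A) ^ γ

/-! ### Plane curves through given points -/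

/-- The substitution `f(x, ζ) ↦ f(x + a, ζ + b)`. -/
def sh {k : Type} [Field k] (a b : k) : k[X][X] →+* k[X][X] :=
  (taylorAlgHom (C b)).toRingHom.comp (mapRingHom (taylorAlgHom a).toRingHom)

/-- `f(x,ζ)` has multiplicity at least `m` at `(a,b)`. -/
def MultGe {k : Type} [Field k] (m : ℕ) (a b : k) (f : k[X][X]) : Prop :=
  ∀ i j : ℕ, i + j < m → ((sh a b f).coeff j).coeff i = 0

theorem MultGe.add {k : Type} [Field k] {m : ℕ} {a b : k} {f h : k[X][X]}
    (hf : MultGe m a b f) (hh : MultGe m a b h) : MultGe m a b (f + h) := by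
  intro i j hij
  rw [map_add, coeff_add, coeff_add, hf i j hij, hh i j hij, add_zero]

theorem MultGe.mul {k : Type} [Field k] {m n : ℕ} {a b : k} {f h : k[X][X]}
    (hf : MultGe m a b f) (hh : MultGe n a b h) : MultGe (m + n) a b (f * h) := by
  intro i j hij
  rw [map_mul, coeff_mul, finsetSum_coeff]
  apply Finset.sum_eq_zero
  intro p hp
  rw [coeff_mul]
  apply Finset.sum_eq_zero
  intro q hq
  have h1 : p.1 + p.2 = j := Finset.HasAntidiagonal.mem_antidiagonal.mp hp
  have h2 : q.1 + q.2 = i := Finset.HasAntidiagonal.mem_antidiagonal.mp hq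
  by_cases h3 : q.1 + p.1 < m
  · rw [hf _ _ h3, zero_mul]
  · rw [hh q.2 p.2 (by omega), mul_zero]

/-- There is no nonzero polynomial of total degree at most `d` with multiplicity at least `m` at
all the points `P i`. -/
def NoCurve (k : Type) [Field k] (r d m : ℕ) (P : Fin r → k × k) : Prop :=
  ∀ f ∈ Pool.Agent.Helper41.Fat.rows k (fun j => d + 1 - j),
    (∀ i, MultGe m (P i).1 (P i).2 f) → f = 0

/-! ### Expansions -/

section expand

variable {k : Type} [Field k]

/-- Expansion at `a`. -/
def TT (a : k) : k[X] →+* PowerSeries k :=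
  coeToPowerSeries.ringHom.comp (taylorAlgHom a).toRingHom

/-- Exchange of the two variables. -/
def swap : PowerSeries (PowerSeries k) →+* PowerSeries (PowerSeries k) where
  toFun f := PowerSeries.mk fun a => PowerSeries.mk fun b =>
    PowerSeries.coeff a (PowerSeries.coeff b f)
  map_zero' := by ext; simp
  map_one' := by
    ext a b
    simp only [PowerSeries.coeff_mk, PowerSeries.coeff_one]
    split_ifs <;> simp_all
  map_add' := by intro f h; ext; simp
  map_mul' := by
    intro f h
    ext a b
    simp only [PowerSeries.coeff_mk, PowerSeries.coeff_mul, map_sum]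
    rw [Finset.sum_comm]

theorem coeff_swap (f : PowerSeries (PowerSeries k)) (a b : ℕ) :
    PowerSeries.coeff b (PowerSeries.coeff a (swap f)) =
      PowerSeries.coeff a (PowerSeries.coeff b f) := by
  simp [swap]

variable {g : ℕ}

/-- `∏ (z - c e)` over all `2 g` points. -/
def DD (c : Fin g × Bool → k) : k[X] := ∏ e, (X - C (c e))

/-- `∏ (z - c e')` over all points but `c e`. -/
def De (c : Fin g × Bool → k) (e : Fin g × Bool) : k[X] :=
  ∏ e' ∈ Finset.univ.erase e, (X - C (c e'))

/-- The inverse of `De` in the expansion at `c e`. -/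
def uu (c : Fin g × Bool → k) (e : Fin g × Bool) : PowerSeries k := (TT (c e) (De c e))⁻¹

/-- The expansion at `c e` of `∑ P_n(z) (t / D(z))^n`; here the inner variable is `x = z - c e`,
the outer variable is `y = t / x`. -/
def EE (c : Fin g × Bool → k) (e : Fin g × Bool) :
    PowerSeries k[X] →+* PowerSeries (PowerSeries k) :=
  (PowerSeries.rescale (uu c e)).comp (PowerSeries.map (TT (c e)))

/-- The bounded elements: `P_n(z) (t / D(z))^n` has order at most `M` at infinity. -/
def Bd (g M : ℕ) (f : PowerSeries k[X]) : Prop :=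
  ∀ n, (PowerSeries.coeff n f).natDegree ≤ M + 2 * g * n

/-- The ring of the smoothing: the expansions at `c (i, false)` and `c (i, true)` agree, and the
order at infinity is bounded. -/
def AA (c : Fin g × Bool → k) : Subring (PowerSeries k[X]) where
  carrier := {f | (∀ i, swap (EE c (i, false) f) = EE c (i, true) f) ∧ ∃ M, Bd g M f}
  zero_mem' := ⟨fun i => by simp, 0, fun n => by simp⟩
  one_mem' := ⟨fun i => by simp, 0, fun n => by
    rw [PowerSeries.coeff_one]; split_ifs <;> simp⟩
  neg_mem' := by
    rintro f ⟨h1, M, h2⟩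
    exact ⟨fun i => by rw [map_neg, map_neg, map_neg, h1], M, fun n => by
      rw [map_neg, natDegree_neg]; exact h2 n⟩
  add_mem' := by
    rintro f h ⟨h1, M, h2⟩ ⟨h3, N, h4⟩
    refine ⟨fun i => by rw [map_add, map_add, map_add, h1, h3], max M N, fun n => ?_⟩
    rw [map_add]
    refine (natDegree_add_le _ _).trans ?_
    have := h2 n
    have := h4 n
    omega
  mul_mem' := by
    rintro f h ⟨h1, M, h2⟩ ⟨h3, N, h4⟩
    refine ⟨fun i => by rw [map_mul, map_mul, map_mul, h1, h3], M + N, fun n => ?_⟩
    rw [PowerSeries.coeff_mul]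
    apply natDegree_sum_le_of_forall_le
    intro p hp
    have h5 : p.1 + p.2 = n := Finset.HasAntidiagonal.mem_antidiagonal.mp hp
    refine natDegree_mul_le.trans ?_
    have := h2 p.1
    have := h4 p.2
    subst h5
    ring_nf at *
    omega

theorem mem_AA (c : Fin g × Bool → k) (f : PowerSeries k[X]) :
    f ∈ AA c ↔ (∀ i, swap (EE c (i, false) f) = EE c (i, true) f) ∧ ∃ M, Bd g M f := Iff.rfl

theorem DD_eq (c : Fin g × Bool → k) (e : Fin g × Bool) :
    DD c = (X - C (c e)) * De c e := (Finset.mul_prod_erase _ _ (Finset.mem_univ e)).symm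

theorem TT_X_sub_C (a b : k) : TT a (X - C b) = PowerSeries.X + PowerSeries.C (a - b) := by
  change ((taylor a (X - C b) : k[X]) : PowerSeries k) = _
  rw [map_sub, taylor_X, taylor_C]
  simp
  ring

theorem constantCoeff_TT (a : k) (P : k[X]) :
    PowerSeries.constantCoeff (TT a P) = P.eval a := by
  change PowerSeries.constantCoeff ((taylor a P : k[X]) : PowerSeries k) = _
  rw [Polynomial.constantCoeff_coe, taylor_coeff_zero]

theorem TT_De_mul_uu (c : Fin g × Bool → k) (hc : Function.Injective c) (e : Fin g × Bool) :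
    TT (c e) (De c e) * uu c e = 1 := by
  apply PowerSeries.mul_inv_cancel
  rw [constantCoeff_TT, De, eval_prod]
  apply Finset.prod_ne_zero_iff.mpr
  intro e' he'
  simp only [eval_sub, eval_X, eval_C]
  intro h
  exact (Finset.mem_erase.mp he').1 (hc (sub_eq_zero.mp h)).symm

theorem TT_DD_mul_uu (c : Fin g × Bool → k) (hc : Function.Injective c) (e : Fin g × Bool) :
    TT (c e) (DD c) * uu c e = PowerSeries.X := by
  rw [DD_eq c e, map_mul, mul_assoc, TT_De_mul_uu c hc, mul_one, TT_X_sub_C]
  simp

/-- The structure map `k⟦t⟧ → k[z]⟦T⟧`, `t = D(z) T`. -/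
def io (c : Fin g × Bool → k) : PowerSeries k →+* PowerSeries k[X] :=
  (PowerSeries.rescale (DD c)).comp (PowerSeries.map C)

theorem coeff_io (c : Fin g × Bool → k) (r : PowerSeries k) (n : ℕ) :
    PowerSeries.coeff n (io c r) = DD c ^ n * C (PowerSeries.coeff n r) := by
  simp [io, PowerSeries.coeff_rescale]

theorem coeff_EE (c : Fin g × Bool → k) (e : Fin g × Bool) (f : PowerSeries k[X]) (n : ℕ) :
    PowerSeries.coeff n (EE c e f) = uu c e ^ n * TT (c e) (PowerSeries.coeff n f) := by
  simp [EE, PowerSeries.coeff_rescale]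

theorem coeff_EE_io (c : Fin g × Bool → k) (hc : Function.Injective c) (e : Fin g × Bool)
    (r : PowerSeries k) (n : ℕ) : PowerSeries.coeff n (EE c e (io c r)) =
      PowerSeries.X ^ n * PowerSeries.C (PowerSeries.coeff n r) := by
  rw [coeff_EE, coeff_io, map_mul, map_pow, ← mul_assoc, ← mul_pow, mul_comm (uu c e),
    TT_DD_mul_uu c hc]
  congr 1
  change ((taylor (c e) (C (PowerSeries.coeff n r)) : k[X]) : PowerSeries k) = _
  rw [taylor_C]
  simp

theorem natDegree_DD (c : Fin g × Bool → k) : (DD c).natDegree = 2 * g := by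
  rw [DD, natDegree_prod_of_monic _ _ (fun e _ => monic_X_sub_C _)]
  simp [Fintype.card_prod]
  ring

theorem io_mem (c : Fin g × Bool → k) (hc : Function.Injective c) (r : PowerSeries k) :
    io c r ∈ AA c := by
  refine ⟨fun i => ?_, 0, fun n => ?_⟩
  · ext a b
    rw [coeff_swap, coeff_EE_io c hc, coeff_EE_io c hc, PowerSeries.coeff_mul_C,
      PowerSeries.coeff_mul_C, PowerSeries.coeff_X_pow, PowerSeries.coeff_X_pow]
    by_cases h : a = b
    · subst h; simp
    · rw [if_neg h, if_neg (fun h' => h h'.symm), zero_mul, zero_mul]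
  · rw [coeff_io]
    refine (natDegree_mul_C_le _ _).trans ?_
    refine natDegree_pow_le.trans ?_
    rw [natDegree_DD]
    linarith [mul_comm n (2 * g)]

end expand

/-- `2 g` distinct points, in pairs. -/
structure Pts (k : Type) [Field k] (g : ℕ) where
  /-- the points -/
  c : Fin g × Bool → k
  inj : Function.Injective c

variable {k : Type} [Field k] {g : ℕ}

/-- The coordinate ring of the smoothing minus the section at infinity. -/
def Pts.A (c : Pts k g) : Type := AA c.c

instance (c : Pts k g) : CommRing c.A := inferInstanceAs (CommRing (AA c.c))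

instance (c : Pts k g) : IsDomain c.A := inferInstanceAs (IsDomain (AA c.c))

/-- An element of the ring as a power series `∑ P_n(z) T^n`. -/
def Pts.ps (c : Pts k g) : c.A →+* PowerSeries k[X] := (AA c.c).subtype

theorem Pts.ps_injective (c : Pts k g) : Function.Injective c.ps := Subtype.val_injective

theorem Pts.ps_mem (c : Pts k g) (f : c.A) : c.ps f ∈ AA c.c := f.2

theorem Pts.exists_ps (c : Pts k g) {f : PowerSeries k[X]} (hf : f ∈ AA c.c) :
    ∃ a : c.A, c.ps a = f := ⟨⟨f, hf⟩, rfl⟩

instance (c : Pts k g) : Algebra (PowerSeries k) c.A :=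
  ((io c.c).codRestrict (AA c.c) (io_mem c.c c.inj)).toAlgebra

theorem Pts.ps_algebraMap (c : Pts k g) (r : PowerSeries k) :
    c.ps (algebraMap (PowerSeries k) c.A r) = io c.c r := rfl

/-- The elements with pole of order at most `M` at infinity. -/
def Pts.AM (c : Pts k g) (M : ℕ) : Set c.A := {f | Bd g M (c.ps f)}

/-- The generic fibre: an algebra over the Laurent series field `k⸨t⸩`. -/
abbrev Pts.AF (c : Pts k g) : Type := LaurentSeries k ⊗[PowerSeries k] c.A

/-- The functions on the generic fibre with pole of order at most `M` at infinity. -/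
def Pts.VF (c : Pts k g) (M : ℕ) : Submodule (LaurentSeries k) c.AF :=
  Submodule.span (LaurentSeries k) {x | ∃ f ∈ c.AM M, x = 1 ⊗ₜ[PowerSeries k] f}

/-- The polynomial in two variables attached to a tensor. -/
def Pts.red (c : Pts k g) {ι : Type} (s : Finset ι)
    (u v : ι → c.A) : k[X][X] :=
  ∑ l ∈ s, C (PowerSeries.coeff 0 (c.ps (u l))) * (PowerSeries.coeff 0 (c.ps (v l))).map C

end

end Pool.Agent.Helper34.EC
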