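import Pool.Agent.Helper34.EC.VanF
import Pool.Agent.Helper4.EC.Lsp
import Pool.Agent.Helper7.EC.Genus
import Pool.Agent.Helper28.EC.Nagata1
import Pool.Agent.Helper28.EC.Nagata2
import Pool.Agent.Helper30.EC.FiltF
import Pool.Agent.Helper36.EC.Loc
import Pool.Agent.Helper48.EC.Collide
import Pool.Agent.Helper59.EC.NormalAF
import Pool.Agent.Helper62.EC.Field
import Pool.Agent.Helper62.EC.Generic
import Pool.Agent.Helper68.EC.FiltBC
import Pool.Agent.Helper82.EC.NormalBC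
import Pool.Agent.Helper83.EC.PlaceInf
import Pool.Agent.Helper85.EC.VanBC
import Pool.Agent.Helper88.EC.FuncField
import Pool.Agent.Helper90.EC.GenDiv

set_option autoImplicit false

namespace Pool.Agent.Helper34.EC

open Polynomial TensorProduct Pool.Agent.Helper16 Pool.Agent.Helper47.RR

theorem main (g : ℕ) : ∃ (L : Type) (_ : Field L) (_ : Algebra ℂ L),
    IsFunctionField ℂ L ∧ genus ℂ L = g ∧
    ∀ (κ C₀ : ℝ), (∀ m d : ℕ, 1 ≤ m → (d : ℝ) ≤ κ * m - C₀ →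
        Pool.Agent.Helper41.Fat.Good ℚ g m (fun j => d + 1 - j) ((d + 2).choose 2)) →
      ∀ (E : Dv ℂ L) (γ : ℕ) (x : L ⊗[ℂ] L), 1 ≤ γ → x ∈ sq (Lsp E) → x ≠ 0 →
        x ∈ (KaehlerDifferential.ideal ℂ L) ^ γ → κ * γ ≤ (degD E : ℝ) - γ := by
  obtain ⟨k, _, _, c₀, _, hc, halg⟩ := Pool.Agent.Helper62.EC.exists_field g
  have hc' : Function.Injective c₀ := hc.injective
  let c : Pts k g := ⟨c₀, hc'⟩
  obtain ⟨P, hP⟩ := Pool.Agent.Helper30.EC.exists_filt c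
  have hdom : IsDomain c.AF := Pool.Agent.Helper68.EC.isDomain_of_filt P
  have hic : IsIntegrallyClosed c.AF := Pool.Agent.Helper59.EC.isIntegrallyClosed_AF c
  have hch : CharZero (LaurentSeries k) :=
    charZero_of_injective_algebraMap (algebraMap k (LaurentSeries k)).injective
  obtain ⟨Q, hQ⟩ := Pool.Agent.Helper68.EC.exists_filt_bc P ℂ
  have hdomC : IsDomain (ℂ ⊗[LaurentSeries k] c.AF) := Pool.Agent.Helper68.EC.isDomain_of_filt Q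
  have hicC : IsIntegrallyClosed (ℂ ⊗[LaurentSeries k] c.AF) := Pool.Agent.Helper82.EC.normal_bc
  obtain ⟨v, hv⟩ := Pool.Agent.Helper83.EC.exists_place (L := FractionRing (ℂ ⊗[LaurentSeries k] c.AF)) Q
  have hL := Pool.Agent.Helper88.EC.isFunctionField_of_filt (L := FractionRing (ℂ ⊗[LaurentSeries k] c.AF)) Q
  have hLsp := Pool.Agent.Helper4.EC.Lsp_single_eq Q v hv
  refine ⟨FractionRing (ℂ ⊗[LaurentSeries k] c.AF), inferInstance, inferInstance, hL,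
    Pool.Agent.Helper7.EC.genus_eq hL Q v hLsp, ?_⟩
  intro κ C₀ hgood E γ x hγ hx hx0 hI
  refine Pool.Agent.Helper90.EC.general_divisor hL v κ (C₀ / 2) ?_ E γ hγ x hx hx0 hI
  intro M γ' hγ' hM
  rw [hLsp M]
  apply Pool.Agent.Helper36.EC.van_frac
  rw [hQ M, hP M]
  apply Pool.Agent.Helper85.EC.van_bc
  apply vanF
  intro hγM
  obtain ⟨P', hP'⟩ := Pool.Agent.Helper48.EC.collide (hgood (2 * γ') (2 * (M - γ')) (by omega) (by
    push_cast [Nat.cast_sub hγM]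
    linarith))
  exact Pool.Agent.Helper62.EC.generic hP' c₀ hc

theorem final : ∃ g₀ : ℕ → ℕ, ∀ g : ℕ, 10 ≤ g → ∃ (L : Type) (_ : Field L) (_ : Algebra ℂ L),
    IsFunctionField ℂ L ∧ genus ℂ L = g ∧
    ∀ (E : Dv ℂ L) (γ : ℕ) (x : L ⊗[ℂ] L), 1 ≤ γ → x ∈ sq (Lsp E) → x ≠ 0 →
      x ∈ (KaehlerDifferential.ideal ℂ L) ^ γ →
      (√g - 1 / (2 * (g - 2) * √g)) * γ ≤ (degD E : ℝ) - γ ∧
      (∀ N : ℕ, g₀ N ≤ g → (√g - 1 / (g : ℝ) ^ N) * γ ≤ (degD E : ℝ) - γ) ∧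
      (γ ^ 2 + 2 < g → g * (γ : ℤ) ^ 2 ≤ (degD E - γ) ^ 2) := by
  choose g₀ hg₀ using Pool.Agent.Helper28.EC.near_nagata'
  refine ⟨g₀, fun g hg => ?_⟩
  obtain ⟨C₀, hC₀⟩ := Pool.Agent.Helper28.EC.near_nagata g hg
  obtain ⟨L, iF, iA, hL, hgen, H⟩ := main g
  refine ⟨L, iF, iA, hL, hgen, fun E γ x hγ hx hx0 hI => ?_⟩
  have h1 := H _ C₀ hC₀ E γ x hγ hx hx0 hI
  refine ⟨h1, fun N hN => H _ 0 (fun m d hm hd => hg₀ N g hN m d hm (by linarith)) E γ x hγ hx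
    hx0 hI, fun hsm => ?_⟩
  by_contra hcon
  push Not at hcon
  have h2 : (degD E - γ) ^ 2 + 1 ≤ g * (γ : ℤ) ^ 2 := hcon
  have h3 : ((degD E : ℝ) - γ) ^ 2 + 1 ≤ g * (γ : ℝ) ^ 2 := by exact_mod_cast h2
  have hgR : (10 : ℝ) ≤ g := by exact_mod_cast hg
  have hs : √(g : ℝ) * √(g : ℝ) = g := Real.mul_self_sqrt (by linarith)
  have hs0 : 0 < √(g : ℝ) := Real.sqrt_pos.mpr (by linarith)
  have hs1 : 1 ≤ √(g : ℝ) := Real.one_le_sqrt.mpr (by linarith)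
  have hsmR : (γ : ℝ) ^ 2 + 2 < g := by exact_mod_cast hsm
  have hγR : (1 : ℝ) ≤ γ := by exact_mod_cast hγ
  set s := √(g : ℝ) with hsdef
  have hk : 0 ≤ s - 1 / (2 * (g - 2) * s) := by
    rw [sub_nonneg, div_le_iff₀ (by nlinarith)]
    nlinarith
  have h4 : ((s - 1 / (2 * (g - 2) * s)) * γ) ^ 2 ≤ ((degD E : ℝ) - γ) ^ 2 :=
    pow_le_pow_left₀ (by positivity) h1 2
  have h5 : (s - 1 / (2 * (g - 2) * s)) ^ 2 = g - 1 / (g - 2) + (1 / (2 * (g - 2) * s)) ^ 2 := by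
    have h6 : s * (1 / (2 * (g - 2) * s)) = 1 / (2 * (g - 2)) := by
      field_simp
    have h7 : (1 : ℝ) / (g - 2) = 2 * (1 / (2 * (g - 2))) := by field_simp
    rw [sub_sq, pow_two s, hs, h7, ← h6]
    ring
  have h8 : (γ : ℝ) ^ 2 * (1 / (g - 2)) < 1 := by
    rw [mul_one_div, div_lt_one (by linarith)]
    linarith
  have h9 : 0 < (γ : ℝ) ^ 2 * (1 / (2 * (g - 2) * s)) ^ 2 := by
    have : 0 < 2 * ((g : ℝ) - 2) * s := by nlinarith
    positivity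
  rw [mul_pow, h5] at h4
  nlinarith

end Pool.Agent.Helper34.EC
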