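import Mathlib

/-!
# Curves over the complex numbers through their function fields: the definitions used in the
statements about the effective cone of the symmetric square
-/

set_option autoImplicit false

namespace Pool.Agent.Helper34.EC.St

open TensorProduct

/-- A point of the smooth projective curve with function field `L`: a normalised discrete
valuation of `L`, trivial on `ℂ` (written multiplicatively: `val f = exp (-ord f)`). -/
structure Point (L : Type) [Field L] [Algebra ℂ L] where
  /-- the valuation -/
  val : Valuation L (WithZero (Multiplicative ℤ))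
  surj : Function.Surjective val
  triv : ∀ a : ℂ, a ≠ 0 → val (algebraMap ℂ L a) = 1

/-- The degree of a divisor. -/
noncomputable def deg {L : Type} [Field L] [Algebra ℂ L] (D : Point L →₀ ℤ) : ℤ :=
  D.sum fun _ n => n

/-- The global sections of `O(D)`: the functions `f` with `ord_v f ≥ - D v` for all points. -/
def sections {L : Type} [Field L] [Algebra ℂ L] (D : Point L →₀ ℤ) : Submodule ℂ L where
  carrier := {f | ∀ v : Point L, v.val f ≤ WithZero.exp (D v)}
  add_mem' := fun {a b} ha hb v => (v.val.map_add a b).trans (max_le (ha v) (hb v))
  zero_mem' := fun v => by simp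
  smul_mem' := fun c f hf v => by
    by_cases hc : c = 0
    · simp [hc]
    · rw [Algebra.smul_def, map_mul, v.triv c hc, one_mul]
      exact hf v

/-- `L` is the function field of a smooth projective curve of genus `g` over `ℂ`: it is a
finitely generated field extension of transcendence degree one, and `g` is the greatest value of
`deg D + 1 - h⁰(D)`. -/
def IsCurve (L : Type) [Field L] [Algebra ℂ L] (g : ℕ) : Prop :=
  Algebra.EssFiniteType ℂ L ∧ Algebra.trdeg ℂ L = 1 ∧
    IsGreatest (Set.range fun D : Point L →₀ ℤ => deg D + 1 - Module.finrank ℂ (sections D)) (g : ℤ)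

/-- `x` is (the restriction to the generic point of the diagonal of) a global section of
`O(D₁) ⊠ O(D₂)` on `C × C` which vanishes to order at least `γ` along the diagonal. -/
def IsSection {L : Type} [Field L] [Algebra ℂ L] (D₁ D₂ : Point L →₀ ℤ) (γ : ℕ) (x : L ⊗[ℂ] L) :
    Prop :=
  x ∈ LinearMap.range (TensorProduct.map (sections D₁).subtype (sections D₂).subtype) ∧
    x ∈ RingHom.ker (Algebra.TensorProduct.lmul' ℂ : L ⊗[ℂ] L →ₐ[ℂ] L) ^ γ

end Pool.Agent.Helper34.EC.St
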