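import Pool.Agent.Helper34.EC.Main
import Pool.Agent.Helper34.EC.StDefs
import Pool.Agent.Helper59.EC.TwoDiv

set_option autoImplicit false

namespace Pool.Agent.Helper34.EC.St

open TensorProduct Pool.Agent.Helper16 Pool.Agent.Helper47.RR

variable {L : Type} [Field L] [Algebra ℂ L]

/-- Points are places. -/
def toPlace : Point L ≃ Place ℂ L where
  toFun v := ⟨v.val, v.surj, v.triv⟩
  invFun v := ⟨v.val, v.surj, v.triv⟩
  left_inv _ := rfl
  right_inv _ := rfl

/-- The divisor on places. -/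
noncomputable def toDv (D : Point L →₀ ℤ) : Dv ℂ L := D.equivMapDomain toPlace

theorem toDv_apply (D : Point L →₀ ℤ) (v : Point L) : toDv D (toPlace v) = D v := by
  unfold toDv
  rw [Finsupp.equivMapDomain_apply, Equiv.symm_apply_apply]

theorem sections_eq (D : Point L →₀ ℤ) : sections D = Lsp (toDv D) := by
  ext f
  rw [mem_Lsp]
  constructor
  · intro h v
    obtain ⟨w, rfl⟩ := toPlace.surjective v
    rw [toDv_apply]
    exact h w
  · intro h v
    have h1 := h (toPlace v)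
    rw [toDv_apply] at h1
    exact h1

theorem deg_eq (D : Point L →₀ ℤ) : deg D = degD (toDv D) := by
  unfold deg degD toDv
  rw [Finsupp.equivMapDomain_eq_mapDomain, Finsupp.sum_mapDomain_index_inj toPlace.injective]

theorem exists_toDv (E : Dv ℂ L) : ∃ D : Point L →₀ ℤ, toDv D = E := by
  refine ⟨E.equivMapDomain toPlace.symm, ?_⟩
  unfold toDv
  ext v
  rw [Finsupp.equivMapDomain_apply, Finsupp.equivMapDomain_apply, Equiv.symm_symm,
    Equiv.apply_symm_apply]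

theorem isCurve_of (hL : IsFunctionField ℂ L) {g : ℕ} (hg : genus ℂ L = g) : IsCurve L g := by
  refine ⟨hL.1, hL.2, ?_, ?_⟩
  · obtain ⟨E, hE⟩ := exists_max hL
    obtain ⟨D, rfl⟩ := exists_toDv E
    refine ⟨D, ?_⟩
    change deg D + 1 - (Module.finrank ℂ (sections D) : ℤ) = g
    rw [deg_eq, sections_eq]
    unfold ell at hE
    omega
  · rintro _ ⟨D, rfl⟩
    change deg D + 1 - (Module.finrank ℂ (sections D) : ℤ) ≤ g
    have h := degD_sub_ell_le hL (toDv D)
    rw [deg_eq, sections_eq]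
    unfold ell at h
    omega

theorem slope_of {κ : ℝ}
    (H : ∀ (E : Dv ℂ L) (γ : ℕ) (x : L ⊗[ℂ] L), 1 ≤ γ → x ∈ sq (Lsp E) → x ≠ 0 →
      x ∈ (KaehlerDifferential.ideal ℂ L) ^ γ → κ * γ ≤ (degD E : ℝ) - γ)
    (D₁ D₂ : Point L →₀ ℤ) (γ : ℕ) (hγ : 1 ≤ γ) (x : L ⊗[ℂ] L) (hx0 : x ≠ 0)
    (hx : IsSection D₁ D₂ γ x) :
    κ * γ ≤ ((deg D₁ : ℝ) + deg D₂) / 2 - γ := by
  obtain ⟨h1, h2⟩ := hx
  rw [deg_eq, deg_eq]
  rw [sections_eq, sections_eq, ← Pool.Agent.Helper59.EC.tens_eq_range] at h1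
  exact Pool.Agent.Helper59.EC.two_div κ (fun E γ hγ x hx hx0 hI => H E γ x hγ hx hx0 hI)
    (toDv D₁) (toDv D₂) γ hγ x h1 hx0 h2

end Pool.Agent.Helper34.EC.St
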