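import Pool.Agent.Helper51.EC.Node
import Pool.Agent.Helper55.EC.Diag
import Pool.Agent.Helper12.EC.DivDiag
import Pool.Agent.Helper63.EC.SymCurve
import Pool.Agent.Helper18.EC.Lattice

set_option autoImplicit false

namespace Pool.Agent.Helper34.EC

open Polynomial TensorProduct Pool.Agent.Helper18.EC Pool.Agent.Helper12.EC
  Pool.Agent.Helper63.EC Pool.Agent.Helper51.EC Pool.Agent.Helper55.EC

variable {k : Type} [Field k] {g : ℕ}

/-- Scaling a finite family of Laurent series to a primitive family of power series. -/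
theorem exists_scale {ι : Type} [Finite ι] (Y : ι → LaurentSeries k) (h : ∃ i, Y i ≠ 0) :
    ∃ (s : LaurentSeries k) (Z : ι → PowerSeries k), s ≠ 0 ∧
      (∀ i, s * Y i = algebraMap (PowerSeries k) (LaurentSeries k) (Z i)) ∧
      ∃ i, PowerSeries.coeff 0 (Z i) ≠ 0 := by
  classical
  have := Fintype.ofFinite ι
  obtain ⟨⟨r, hr⟩, hr'⟩ := IsLocalization.exist_integer_multiples_of_finset
    (nonZeroDivisors (PowerSeries k)) (Finset.univ.image Y)
  have hr0 : r ≠ 0 := nonZeroDivisors.ne_zero hr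
  have h1 : ∀ i, ∃ z : PowerSeries k, algebraMap (PowerSeries k) (LaurentSeries k) z =
      algebraMap (PowerSeries k) (LaurentSeries k) r * Y i := by
    intro i
    obtain ⟨z, hz⟩ := hr' (Y i) (Finset.mem_image_of_mem _ (Finset.mem_univ i))
    exact ⟨z, by rw [hz, Algebra.smul_def]⟩
  choose z hz using h1
  have hinj : Function.Injective (algebraMap (PowerSeries k) (LaurentSeries k)) :=
    IsFractionRing.injective _ _
  obtain ⟨i₀, hi₀⟩ := h
  have hz0 : z i₀ ≠ 0 := by
    intro h0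
    have h2 := hz i₀
    rw [h0, map_zero] at h2
    rcases mul_eq_zero.mp h2.symm with h3 | h3
    · exact hr0 (hinj (by rw [h3, map_zero]))
    · exact hi₀ h3
  -- the largest power of `X` dividing all `z i`
  have hex : ∃ n, ¬ ∀ i, (PowerSeries.X : PowerSeries k) ^ n ∣ z i := by
    obtain ⟨n, hn⟩ : ∃ n, PowerSeries.coeff n (z i₀) ≠ 0 := by
      by_contra hcon
      push Not at hcon
      exact hz0 (PowerSeries.ext (by simpa using hcon))
    refine ⟨n + 1, fun hall => hn ?_⟩
    exact PowerSeries.X_pow_dvd_iff.mp (hall i₀) n (Nat.lt_succ_self n)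
  obtain ⟨n, hn1, hn2⟩ : ∃ n, (∀ i, (PowerSeries.X : PowerSeries k) ^ n ∣ z i) ∧
      ¬ ∀ i, (PowerSeries.X : PowerSeries k) ^ (n + 1) ∣ z i := by
    have h3 := Nat.find_spec hex
    have h4 : Nat.find hex ≠ 0 := by
      intro h0
      rw [h0] at h3
      exact h3 (fun i => by simp)
    obtain ⟨m, hm⟩ := Nat.exists_eq_succ_of_ne_zero h4
    refine ⟨m, ?_, ?_⟩
    · have := Nat.find_min hex (m := m) (by omega)
      simpa using this
    · rw [hm] at h3
      exact h3
  choose Z hZ using hn1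
  have hX : (PowerSeries.X : PowerSeries k) ≠ 0 := PowerSeries.X_ne_zero
  have hXF : algebraMap (PowerSeries k) (LaurentSeries k) PowerSeries.X ≠ 0 := by
    intro h0
    exact hX (hinj (by rw [h0, map_zero]))
  refine ⟨(algebraMap (PowerSeries k) (LaurentSeries k) PowerSeries.X ^ n)⁻¹ *
    algebraMap (PowerSeries k) (LaurentSeries k) r, Z, ?_, ?_, ?_⟩
  · apply mul_ne_zero (inv_ne_zero (pow_ne_zero _ hXF))
    intro h0
    exact hr0 (hinj (by rw [h0, map_zero]))
  · intro i
    rw [mul_assoc, ← hz i, hZ i, map_mul, map_pow, ← mul_assoc, inv_mul_cancel₀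
      (pow_ne_zero _ hXF), one_mul]
  · by_contra hcon
    push Not at hcon
    apply hn2
    intro i
    have h5 : (PowerSeries.X : PowerSeries k) ∣ Z i :=
      PowerSeries.X_dvd_iff.mpr (by rw [← PowerSeries.coeff_zero_eq_constantCoeff_apply]; exact hcon i)
    rw [hZ i, pow_succ]
    exact mul_dvd_mul_left _ h5

/-- If `e` generates, every tensor is a combination of the `e j ⊗ e l`. -/
theorem exists_coords {F A : Type} [Field F] [CommRing A] [Algebra F A] {n : ℕ} (e : Fin n → A)
    {V : Submodule F A} (hV : V ≤ Submodule.span F (Set.range e)) {x : A ⊗[F] A} (hx : x ∈ sq V) :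
    ∃ Y : Fin n × Fin n → F, x = ∑ q, Y q • (e q.1 ⊗ₜ[F] e q.2) := by
  classical
  unfold sq at hx
  induction hx using Submodule.span_induction with
  | mem x hx =>
    obtain ⟨a, ha, b, hb, rfl⟩ := hx
    obtain ⟨ca, hca⟩ := (Submodule.mem_span_range_iff_exists_fun F).mp (hV ha)
    obtain ⟨cb, hcb⟩ := (Submodule.mem_span_range_iff_exists_fun F).mp (hV hb)
    refine ⟨fun q => ca q.1 * cb q.2, ?_⟩
    rw [← hca, ← hcb, TensorProduct.sum_tmul, Fintype.sum_prod_type]
    apply Finset.sum_congr rfl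
    intro i _
    rw [TensorProduct.tmul_sum]
    apply Finset.sum_congr rfl
    intro j _
    rw [TensorProduct.smul_tmul_smul]
  | zero => exact ⟨0, by simp⟩
  | add x y _ _ hx hy =>
    obtain ⟨Y, rfl⟩ := hx
    obtain ⟨Z, rfl⟩ := hy
    refine ⟨Y + Z, ?_⟩
    rw [← Finset.sum_add_distrib]
    apply Finset.sum_congr rfl
    intro q _
    rw [Pi.add_apply, add_smul]
  | smul a x _ hx =>
    obtain ⟨Y, rfl⟩ := hx
    refine ⟨a • Y, ?_⟩
    rw [Finset.smul_sum]
    apply Finset.sum_congr rfl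
    intro q _
    rw [Pi.smul_apply, smul_smul, smul_eq_mul]

theorem red_ne_zero {n : ℕ} (E : Fin n → k[X]) (hE : LinearIndependent k E)
    (y : Fin n × Fin n → k) (hy : ∃ q, y q ≠ 0) :
    ∑ q : Fin n × Fin n, (C (C (y q) * E q.1) : k[X][X]) * (E q.2).map C ≠ 0 := by
  intro h0
  obtain ⟨⟨i₀, j₀⟩, hq⟩ := hy
  rw [Fintype.linearIndependent_iff] at hE
  apply hq
  have h1 : ∀ b : ℕ, ∀ i, ∑ j, y (i, j) * (E j).coeff b = 0 := by
    intro b
    apply hE
    have h2 := congrArg (fun f : k[X][X] => f.coeff b) h0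
    simp only [finsetSum_coeff, coeff_C_mul, coeff_map, coeff_zero] at h2
    rw [Fintype.sum_prod_type] at h2
    rw [← h2]
    apply Finset.sum_congr rfl
    intro i _
    rw [Finset.sum_smul]
    apply Finset.sum_congr rfl
    intro j _
    rw [← Polynomial.C_mul']
    simp only [map_mul]
    ring
  have h3 := hE (fun j => y (i₀, j)) (by
    ext b
    simpa [finsetSum_coeff] using h1 b i₀)
  exact h3 j₀

theorem vanF (c : Pts k g) (M γ : ℕ) (h : γ ≤ M → NoCurve k g (2 * (M - γ)) (2 * γ)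
      (fun i => (c.c (i, false) + c.c (i, true), c.c (i, false) * c.c (i, true)))) :
    Van (LaurentSeries k) c.AF (c.VF M) γ := by
  classical
  intro x hx hx0 b hb hI
  obtain ⟨n, e, he, hspan, hli, -⟩ := exists_lattice c M
  have hV : c.VF M ≤ Submodule.span (LaurentSeries k)
      (Set.range fun j => ((1 : LaurentSeries k) ⊗ₜ[PowerSeries k] e j : c.AF)) := by
    unfold Pts.VF
    rw [Submodule.span_le]
    rintro _ ⟨f, hf, rfl⟩
    obtain ⟨r, rfl⟩ := hspan f hf
    rw [TensorProduct.tmul_sum]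
    apply Submodule.sum_mem
    intro j _
    have h1 : ((1 : LaurentSeries k) ⊗ₜ[PowerSeries k] (r j • e j) : c.AF) =
        (algebraMap (PowerSeries k) (LaurentSeries k) (r j)) • (1 ⊗ₜ e j) := by
      rw [TensorProduct.tmul_smul, algebraMap_smul]
    rw [h1]
    exact Submodule.smul_mem _ _ (Submodule.subset_span ⟨j, rfl⟩)
  obtain ⟨Y, rfl⟩ := exists_coords _ hV hx
  have hY : ∃ q, Y q ≠ 0 := by
    by_contra hcon
    push Not at hcon
    apply hx0
    apply Finset.sum_eq_zero
    intro q _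
    rw [hcon q, zero_smul]
  obtain ⟨s, Z, hs, hZ, q₀, hq₀⟩ := exists_scale Y hY
  -- the scaled tensor
  have hsx : s • ∑ q, Y q • (((1 : LaurentSeries k) ⊗ₜ[PowerSeries k] e q.1 : c.AF)
        ⊗ₜ[LaurentSeries k] ((1 : LaurentSeries k) ⊗ₜ[PowerSeries k] e q.2 : c.AF)) =
      ∑ q : Fin n × Fin n, ((1 : LaurentSeries k) ⊗ₜ[PowerSeries k] (Z q • e q.1) : c.AF)
        ⊗ₜ[LaurentSeries k] ((1 : LaurentSeries k) ⊗ₜ[PowerSeries k] e q.2 : c.AF) := by
    rw [Finset.smul_sum]
    apply Finset.sum_congr rfl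
    intro q _
    have h1 : ((1 : LaurentSeries k) ⊗ₜ[PowerSeries k] (Z q • e q.1) : c.AF) =
        (algebraMap (PowerSeries k) (LaurentSeries k) (Z q)) • (1 ⊗ₜ e q.1) := by
      rw [TensorProduct.tmul_smul, algebraMap_smul]
    rw [h1, ← hZ q, smul_smul, TensorProduct.smul_tmul']
  have hI' : (b ⊗ₜ[LaurentSeries k] b) * ∑ q : Fin n × Fin n,
      ((1 : LaurentSeries k) ⊗ₜ[PowerSeries k] (Z q • e q.1) : c.AF)
        ⊗ₜ[LaurentSeries k] ((1 : LaurentSeries k) ⊗ₜ[PowerSeries k] e q.2 : c.AF) ∈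
      (KaehlerDifferential.ideal (LaurentSeries k) c.AF) ^ γ := by
    rw [← hsx, mul_smul_comm]
    exact Submodule.smul_of_tower_mem _ s hI
  have h2 := diag_dvd c Finset.univ (fun q : Fin n × Fin n => Z q • e q.1) (fun q => e q.2)
    b hb γ hI'
  have h3 := node_mult c Finset.univ (fun q : Fin n × Fin n => Z q • e q.1) (fun q => e q.2)
    b hb γ hI'
  set f := c.red Finset.univ (fun q : Fin n × Fin n => Z q • e q.1) (fun q => e q.2) with hf
  have hfe : f = ∑ q : Fin n × Fin n, (C (C (PowerSeries.coeff 0 (Z q)) *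
      PowerSeries.coeff 0 (c.ps (e q.1))) : k[X][X]) *
        (PowerSeries.coeff 0 (c.ps (e q.2))).map C := by
    rw [hf, Pts.red]
    apply Finset.sum_congr rfl
    intro q _
    congr 2
    have h4 : ∀ u v : PowerSeries k[X], PowerSeries.coeff 0 (u * v) =
        PowerSeries.coeff 0 u * PowerSeries.coeff 0 v := by
      intro u v
      simp only [PowerSeries.coeff_zero_eq_constantCoeff_apply, map_mul]
    rw [Algebra.smul_def, map_mul, c.ps_algebraMap, h4, coeff_io, pow_zero, one_mul]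
  have hf0 : f ≠ 0 := by
    rw [hfe]
    exact red_ne_zero _ hli (fun q => PowerSeries.coeff 0 (Z q)) ⟨q₀, hq₀⟩
  have hdeg : ∀ j, (PowerSeries.coeff 0 (c.ps (e j))).natDegree ≤ M := by
    intro j
    have := he j 0
    simpa using this
  have hfM : f.natDegree ≤ M := by
    rw [hfe]
    apply natDegree_sum_le_of_forall_le
    intro q _
    refine (natDegree_C_mul_le _ _).trans ?_
    exact (natDegree_map_le).trans (hdeg q.2)
  have hfM' : ∀ j, (f.coeff j).natDegree ≤ M := by
    intro j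
    rw [hfe, finsetSum_coeff]
    apply natDegree_sum_le_of_forall_le
    intro q _
    rw [coeff_C_mul, coeff_map]
    refine (natDegree_mul_C_le _ _).trans ?_
    refine (natDegree_C_mul_le _ _).trans (hdeg q.1)
  obtain ⟨hγM, w, hw0, hw1, hw2, hw3⟩ := div_diag hf0 hfM hfM' h2
  have hne : ∀ i, c.c (i, false) ≠ c.c (i, true) := by
    intro i hcon
    have := c.inj hcon
    simp at this
  obtain ⟨G, hG1, hG2, hG3⟩ := sym_curve (fun i => c.c (i, false)) (fun i => c.c (i, true)) hne
    hw0 hw1 hw2 (fun i => hw3 _ _ (hne i) _ (h3 i).1)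
    (fun i => hw3 _ _ (hne i).symm _ (h3 i).2)
  exact hG2 (h hγM G hG1 hG3)

end Pool.Agent.Helper34.EC
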